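import Pool.Agent.E8helper54.CTM.Lax
import Pool.Agent.E8helper20.CTM.StmX

/-!
# Project CTM, piece X1 LAX
-/

set_option autoImplicit false

namespace Pool.Agent.E8helper54.CTM

theorem t_LAX : Pool.Agent.E8helper20.CTM.S_LAX := lax

end Pool.Agent.E8helper54.CTM
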