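import Pool.Agent.Y994.XL.LA

/-!
# Project CTM, piece X1 LAX: the law for the bordered block system (light version)

Adaptation of `Pool.Agent.Y994.XL.t_LA` (helper994), which adapts `Pool.Agent.Y85.XK.t_LA`.
-/

set_option autoImplicit false
set_option linter.unusedVariables false

open scoped Classical

namespace Pool.Agent.E8helper54.CTM

open Function Module Finset
open Pool.Agent.Y759.CX (fr fr_equiv fr_comp)
open Pool.Agent.Y703.XK (prs)
open Pool.Agent.Y703.XL
open Pool.Agent.Y85.XK
open Pool.Agent.Y994.XL (cond_iff bound)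

/-- copy of `Pool.Agent.E8helper20.CTM.nX` -/
noncomputable def nX {U J : Type} [Fintype U] [Fintype J] (A : U → U → ZMod 3)
    (B : U → J → ZMod 3) (g : U → ZMod 3) (c : J → ZMod 3) (d : ZMod 3) (R : J → J → ZMod 3) : ℕ :=
  Nat.card {p : ((U → ZMod 3) × (J → ZMod 3)) × ZMod 3 //
    (∀ u, ∑ v, A u v * (p.1.1 v - p.1.1 u) + ∑ l, B u l * (p.1.2 l - p.1.1 u) + p.2 * g u = 0) ∧
    (∀ k, ∑ u, B u k * (p.1.1 u - p.1.2 k) + ∑ l, R k l * (p.1.2 l - p.1.2 k) + p.2 * c k = 0) ∧
    (∑ u, g u + ∑ k, c k = 0 → ∑ u, g u * p.1.1 u + ∑ k, c k * p.1.2 k + d * p.2 = 0)}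

section main

variable {U J : Type} [Fintype U] [Fintype J] [LinearOrder J]

/-- the sum of all the equations -/
lemma tot (A : U → U → F) (B : U → J → F) (g : U → F) (c : J → F) (R : J → J → F)
    (hA : ∀ u v, A u v = A v u) (hR : ∀ k l, R k l = R l k) (x : U → F) (y : J → F) (s : F) :
    ∑ u, (∑ v, A u v * (x v - x u) + ∑ l, B u l * (y l - x u) + s * g u) +
      ∑ k, (∑ u, B u k * (x u - y k) + ∑ l, R k l * (y l - y k) + s * c k) =
      s * (∑ u, g u + ∑ k, c k) := by
  have t1 := tot_symm A hA x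
  have t2 := tot_symm R hR y
  have t3 := tot_cross B x y
  simp only [sum_add_distrib, ← mul_sum]
  rw [t1, t2]
  linear_combination t3

/-- first block -/
noncomputable def oA (A : U → U → F) (B : U → J → F) (g : U → F) (d : F) :
    Option U → Option U → F
  | some u, some v => mA A B u v
  | some u, none => g u
  | none, some v => g v
  | none, none => d

/-- all columns of the second block -/
def oB (B : U → J → F) (c : J → F) : Option U → J → F
  | some u, k => B u k
  | none, k => c k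

/-- the vector `(x, s)` -/
def xs (x : U → F) (s : F) : Option U → F
  | some u => x u
  | none => s

lemma oA_symm (A : U → U → F) (B : U → J → F) (g : U → F) (d : F)
    (hA : ∀ u v, A u v = A v u) : ∀ u v, oA A B g d u v = oA A B g d v u
  | some u, some v => mA_symm A B hA u v
  | some u, none => rfl
  | none, some v => rfl
  | none, none => rfl

lemma sum_c_zx (ks : J) (c : J → F) (y : {k : J // k ≠ ks} → F) :
    ∑ k, c k * zx ks y k = ∑ k : {k : J // k ≠ ks}, c k * y k := sum_zx ks y c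

lemma red_iff (ks : J) (A : U → U → F) (B : U → J → F) (g : U → F) (c : J → F) (d : F)
    (hA : ∀ u v, A u v = A v u) (α : prs J → F) (x : U → F) (s : F)
    (y : {k : J // k ≠ ks} → F) :
    ((∀ v, ∑ u, xs x s u * oA A B g d u v + ∑ k, mC ks (oB B c) v k * y k = 0) ∧
      (∀ l, ∑ u, xs x s u * mC ks (oB B c) u l + ∑ k, y k * (mL ks α k l + mZ ks B k l) = 0)) ↔
    ((∀ u, ∑ v, A u v * (x v - x u) + ∑ l, B u l * (zx ks y l - x u) + s * g u = 0) ∧
      (∀ l : {k : J // k ≠ ks}, ∑ u, B u l * (x u - zx ks y l) +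
        ∑ k, Pool.Agent.Y703.XK.ext α l k * (zx ks y k - zx ks y l) + s * c l = 0) ∧
      ∑ u, g u * x u + ∑ k, c k * zx ks y k + d * s = 0) := by
  have r1 : ∀ v, ∑ u, xs x s u * oA A B g d u (some v) + ∑ k, mC ks (oB B c) (some v) k * y k =
      ∑ w, A v w * (x w - x v) + ∑ l, B v l * (zx ks y l - x v) + s * g v := by
    intro v
    rw [row1 ks A B hA, Fintype.sum_option]
    simp only [xs, oA]
    have : ∀ k, mC ks (oB B c) (some v) k = mC ks B v k := fun k => rfl
    simp only [this]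
    ring
  have r2 : ∑ u, xs x s u * oA A B g d u none + ∑ k, mC ks (oB B c) none k * y k =
      ∑ u, g u * x u + ∑ k, c k * zx ks y k + d * s := by
    rw [sum_c_zx, Fintype.sum_option]
    simp only [xs, oA]
    have : ∀ k, mC ks (oB B c) none k = c k := fun k => rfl
    simp only [this]
    have h1 : ∑ u, x u * g u = ∑ u, g u * x u := sum_congr rfl fun u _ => mul_comm _ _
    rw [h1]
    ring
  have r3 : ∀ l : {k : J // k ≠ ks}, ∑ u, xs x s u * mC ks (oB B c) u l +
      ∑ k, y k * (mL ks α k l + mZ ks B k l) =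
      ∑ u, B u l * (x u - zx ks y l) +
        ∑ k, Pool.Agent.Y703.XK.ext α l k * (zx ks y k - zx ks y l) + s * c l := by
    intro l
    rw [row2 ks B α x y l, Fintype.sum_option]
    simp only [xs]
    have h1 : mC ks (oB B c) none l = c l := rfl
    have h2 : ∀ u, mC ks (oB B c) (some u) l = mC ks B u l := fun u => rfl
    simp only [h1, h2]
    ring
  constructor
  · rintro ⟨h1, h2⟩
    refine ⟨fun u => ?_, fun l => ?_, ?_⟩
    · rw [← r1]; exact h1 _
    · rw [← r3]; exact h2 _
    · rw [← r2]; exact h1 _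
  · rintro ⟨h1, h2, h3⟩
    refine ⟨fun v => ?_, fun l => ?_⟩
    · cases v with
      | none => rw [r2]; exact h3
      | some v => rw [r1]; exact h1 v
    · rw [r3]; exact h2 l

lemma full (ks : J) (A : U → U → F) (B : U → J → F) (g : U → F) (c : J → F) (d : F)
    (hA : ∀ u v, A u v = A v u) (hgc : ∑ u, g u + ∑ k, c k = 0) (α : prs J → F) (x : U → F)
    (s : F) (y : {k : J // k ≠ ks} → F)
    (h1 : ∀ u, ∑ v, A u v * (x v - x u) + ∑ l, B u l * (zx ks y l - x u) + s * g u = 0)
    (h2 : ∀ l : {k : J // k ≠ ks}, ∑ u, B u l * (x u - zx ks y l) +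
        ∑ k, Pool.Agent.Y703.XK.ext α l k * (zx ks y k - zx ks y l) + s * c l = 0) (k : J) :
    ∑ u, B u k * (x u - zx ks y k) +
      ∑ l, Pool.Agent.Y703.XK.ext α k l * (zx ks y l - zx ks y k) + s * c k = 0 := by
  by_cases hk : k = ks
  · have t := tot A B g c (Pool.Agent.Y703.XK.ext α) hA (ext_symm α) x (zx ks y) s
    rw [hgc, mul_zero] at t
    have t4 : ∑ u, (∑ v, A u v * (x v - x u) + ∑ l, B u l * (zx ks y l - x u) + s * g u) = 0 :=
      sum_eq_zero fun u _ => h1 u
    have t5 : ∑ k, (∑ u, B u k * (x u - zx ks y k) +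
        ∑ l, Pool.Agent.Y703.XK.ext α k l * (zx ks y l - zx ks y k) + s * c k) =
        ∑ u, B u ks * (x u - zx ks y ks) +
          ∑ l, Pool.Agent.Y703.XK.ext α ks l * (zx ks y l - zx ks y ks) + s * c ks := by
      refine sum_eq_single ks (fun k _ hk => h2 ⟨k, hk⟩) fun h => absurd (mem_univ _) h
    rw [t4, zero_add, t5] at t
    rw [hk]
    exact t
  · exact h2 ⟨k, hk⟩

lemma zx_sub (ks : J) (y : J → F) (k : J) :
    zx ks (fun k : {k : J // k ≠ ks} => y k - y ks) k = y k - y ks := by
  by_cases hk : k = ks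
  · rw [hk, zx_ks, sub_self]
  · exact zx_of ks (fun k : {k : J // k ≠ ks} => y k - y ks) ⟨k, hk⟩

lemma xs_eta (p : Option U → F) : xs (fun u => p (some u)) (p none) = p := by
  funext o
  cases o <;> rfl

lemma nX_eq (ks : J) (A : U → U → F) (B : U → J → F) (g : U → F) (c : J → F) (d : F)
    (hA : ∀ u v, A u v = A v u) (hgc : ∑ u, g u + ∑ k, c k = 0) (α : prs J → F) :
    nX A B g c d (Pool.Agent.Y703.XK.ext α) =
      3 * nG (bf (oA A B g d)) (bf (mC ks (oB B c)))
        (bf fun k l => mL ks α k l + mZ ks B k l) := by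
  unfold nX nG
  have h3 : Nat.card F = 3 := by
    rw [Nat.card_eq_fintype_card, ZMod.card]
  have h4 : Nat.card (F × {p : (Option U → F) × ({k : J // k ≠ ks} → F) //
      (∀ x', bf (oA A B g d) p.1 x' + bf (mC ks (oB B c)) x' p.2 = 0) ∧
        ∀ y', bf (mC ks (oB B c)) p.1 y' +
          bf (fun k l => mL ks α k l + mZ ks B k l) p.2 y' = 0}) =
      3 * Nat.card {p : (Option U → F) × ({k : J // k ≠ ks} → F) //
      (∀ x', bf (oA A B g d) p.1 x' + bf (mC ks (oB B c)) x' p.2 = 0) ∧
        ∀ y', bf (mC ks (oB B c)) p.1 y' +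
          bf (fun k l => mL ks α k l + mZ ks B k l) p.2 y' = 0} := by
    rw [Nat.card_prod, h3]
  refine Eq.trans (Nat.card_congr ?_) h4
  exact {
    toFun := fun p => (p.1.1.2 ks,
      ⟨(xs (fun u => p.1.1.1 u - p.1.1.2 ks) p.1.2, fun k => p.1.1.2 k - p.1.1.2 ks),
        (cond_iff _ _ _ _ _).2 ((red_iff ks A B g c d hA α _ _ _).2 (by
          obtain ⟨e1, e2, e3⟩ := p.2
          simp only [zx_sub, sub_sub_sub_cancel_right]
          refine ⟨e1, fun l => e2 l, ?_⟩
          have e4 := e3 hgc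
          have e5 : ∑ u, g u * (p.1.1.1 u - p.1.1.2 ks) + ∑ k, c k * (p.1.1.2 k - p.1.1.2 ks) =
              ∑ u, g u * p.1.1.1 u + ∑ k, c k * p.1.1.2 k -
                (∑ u, g u + ∑ k, c k) * p.1.1.2 ks := by
            simp only [mul_sub, sum_sub_distrib, ← sum_mul]
            ring
          linear_combination e5 + e4 - p.1.1.2 ks * hgc))⟩)
    invFun := fun q => ⟨((fun u => q.2.1.1 (some u) + q.1, fun k => zx ks q.2.1.2 k + q.1),
        q.2.1.1 none), by
      have h4 := (cond_iff _ _ _ _ _).1 q.2.2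
      rw [← xs_eta q.2.1.1] at h4
      have h5 := (red_iff ks A B g c d hA α _ _ _).1 h4
      obtain ⟨e1, e2, e3⟩ := h5
      refine ⟨fun u => ?_, fun k => ?_, fun _ => ?_⟩
      · simp only [add_sub_add_right_eq_sub]
        exact e1 u
      · simp only [add_sub_add_right_eq_sub]
        exact full ks A B g c d hA hgc α _ _ _ e1 e2 k
      · have e5 : ∑ u, g u * (q.2.1.1 (some u) + q.1) + ∑ k, c k * (zx ks q.2.1.2 k + q.1) =
            ∑ u, g u * q.2.1.1 (some u) + ∑ k, c k * zx ks q.2.1.2 k +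
              (∑ u, g u + ∑ k, c k) * q.1 := by
          simp only [mul_add, sum_add_distrib, ← sum_mul]
          ring
        show ∑ u, g u * (q.2.1.1 (some u) + q.1) + ∑ k, c k * (zx ks q.2.1.2 k + q.1) +
          d * q.2.1.1 none = 0
        rw [e5, hgc, zero_mul, add_zero]
        exact e3⟩
    left_inv := fun p => by
      refine Subtype.ext (Prod.ext (Prod.ext (funext fun u => ?_) (funext fun k => ?_)) ?_)
      · exact sub_add_cancel _ _
      · show zx ks (fun k : {k : J // k ≠ ks} => p.1.1.2 k - p.1.1.2 ks) k + p.1.1.2 ks =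
          p.1.1.2 k
        rw [zx_sub, sub_add_cancel]
      · rfl
    right_inv := fun q => by
      refine Prod.ext ?_ (Subtype.ext (Prod.ext (funext fun u => ?_) (funext fun k => ?_)))
      · show zx ks q.2.1.2 ks + q.1 = q.1
        rw [zx_ks, zero_add]
      · cases u with
        | none => rfl
        | some u =>
          show q.2.1.1 (some u) + q.1 - (zx ks q.2.1.2 ks + q.1) = q.2.1.1 (some u)
          rw [zx_ks, zero_add, add_sub_cancel_right]
      · show zx ks q.2.1.2 k + q.1 - (zx ks q.2.1.2 ks + q.1) = q.2.1.2 k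
        rw [zx_ks, zero_add, add_sub_cancel_right, zx_of] }

lemma nX_ne (A : U → U → F) (B : U → J → F) (g : U → F) (c : J → F) (d : F) (R : J → J → F)
    (hA : ∀ u v, A u v = A v u) (hR : ∀ k l, R k l = R l k) (hgc : ∑ u, g u + ∑ k, c k ≠ 0) :
    nX A B g c d R = nA A B R := by
  unfold nX nA
  have key : ∀ p : {p : ((U → ZMod 3) × (J → ZMod 3)) × ZMod 3 //
      (∀ u, ∑ v, A u v * (p.1.1 v - p.1.1 u) + ∑ l, B u l * (p.1.2 l - p.1.1 u) + p.2 * g u = 0) ∧
      (∀ k, ∑ u, B u k * (p.1.1 u - p.1.2 k) + ∑ l, R k l * (p.1.2 l - p.1.2 k) +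
        p.2 * c k = 0) ∧
      (∑ u, g u + ∑ k, c k = 0 → ∑ u, g u * p.1.1 u + ∑ k, c k * p.1.2 k + d * p.2 = 0)},
      p.1.2 = 0 := by
    intro p
    have t := tot A B g c R hA hR p.1.1.1 p.1.1.2 p.1.2
    rw [sum_eq_zero fun u _ => p.2.1 u, sum_eq_zero fun k _ => p.2.2.1 k, add_zero] at t
    rcases mul_eq_zero.1 t.symm with h | h
    · exact h
    · exact absurd h hgc
  refine Nat.card_congr {
    toFun := fun p => ⟨p.1.1, by
      have h0 := key p
      obtain ⟨e1, e2, _⟩ := p.2
      rw [h0] at e1 e2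
      refine ⟨fun u => ?_, fun k => ?_⟩
      · have := e1 u
        rwa [zero_mul, add_zero] at this
      · have := e2 k
        rwa [zero_mul, add_zero] at this⟩
    invFun := fun q => ⟨(q.1, 0), by
      obtain ⟨e1, e2⟩ := q.2
      refine ⟨fun u => ?_, fun k => ?_, fun h => absurd h hgc⟩
      · show ∑ v, A u v * (q.1.1 v - q.1.1 u) + ∑ l, B u l * (q.1.2 l - q.1.1 u) + 0 * g u = 0
        rw [zero_mul, add_zero]; exact e1 u
      · show ∑ u, B u k * (q.1.1 u - q.1.2 k) + ∑ l, R k l * (q.1.2 l - q.1.2 k) + 0 * c k = 0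
        rw [zero_mul, add_zero]; exact e2 k⟩
    left_inv := fun p => by
      refine Subtype.ext (Prod.ext rfl ?_)
      exact (key p).symm
    right_inv := fun q => rfl }

end main

/-- the law for the bordered block system -/
theorem lax : S_ABS → S_LIM → S_LA → ∀ (r : ℕ) (U J : Type) [Fintype U] [Fintype J]
    [LinearOrder J] (A : U → U → ZMod 3) (B : U → J → ZMod 3) (g : U → ZMod 3) (c : J → ZMod 3)
    (d : ZMod 3), Fintype.card U + 1 < Fintype.card J → (∀ u v, A u v = A v u) →
    (∀ (w : U → ZMod 3) (t : ZMod 3), (t ≠ 0 ∨ ∃ u, w u ≠ 0) →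
      ∃ k, ∑ u, w u * B u k + t * c k ≠ 0) →
    |((univ.filter fun α : prs J → ZMod 3 =>
        nX A B g c d (Pool.Agent.Y703.XK.ext α) = 3 ^ (r + 1)).card : ℝ) /
        3 ^ (prs J).card - cr r| ≤
      3 ^ (r + 1) * (3 ^ (Fintype.card U + 1) / 3 ^ Fintype.card J) := by
  intro hABS hLIM hLA r U J _ _ _ A B g c d hJ hA hB
  by_cases hgc : ∑ u, g u + ∑ k, c k = 0
  · have hB' : ∀ w : Option U → F, (∃ u, w u ≠ 0) → ∃ k, ∑ u, w u * oB B c u k ≠ 0 := by
      rintro w ⟨u, hu⟩
      obtain ⟨k, hk⟩ := hB (fun u => w (some u)) (w none) (by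
        cases u with
        | none => exact Or.inl hu
        | some u => exact Or.inr ⟨u, hu⟩)
      refine ⟨k, ?_⟩
      rw [Fintype.sum_option]
      intro h0
      apply hk
      rw [add_comm]
      exact h0
    obtain ⟨ks, hks⟩ := exists_ks (by rw [Fintype.card_option]; exact hJ) (oB B c) hB'
    obtain ⟨Z, hm, key⟩ := hABS ({k : J // k ≠ ks} → F) (Option U → F)
      (bf (oA A B g d)) (bf (mC ks (oB B c))) (bf_symm _ (oA_symm A B g d hA))
      (fun x hx => by
        by_contra hne
        obtain ⟨k, hk, hk'⟩ := hks x (by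
          by_contra hc
          push Not at hc
          exact hne (funext hc))
        apply hk'
        exact all_zero (fun k : {k : J // k ≠ ks} => ∑ i, x i * mC ks (oB B c) i k) (fun y => by
          rw [← bf_l]
          exact hx y) ⟨k, hk⟩)
    rw [finrank_fintype_fun_eq_card, finrank_fintype_fun_eq_card] at hm
    have e1 : Fintype.card {k : J // k ≠ ks} = Fintype.card J - 1 := by
      rw [Fintype.card_subtype_compl, Fintype.card_subtype_eq]
    have e2 : Fintype.card (Option U) = Fintype.card U + 1 := Fintype.card_option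
    have h5 : ((univ.filter fun α : prs J → ZMod 3 =>
        nX A B g c d (Pool.Agent.Y703.XK.ext α) = 3 ^ (r + 1)).card : ℝ) / 3 ^ (prs J).card =
        fr (fun S : Sy ({k : J // k ≠ ks} → F) =>
          nG (bf (oA A B g d)) (bf (mC ks (oB B c))) S.1 = 3 ^ r) := by
      let S0 : Sy ({k : J // k ≠ ks} → F) := ⟨bf (mZ ks B), bf_symm _ (mZ_symm ks B)⟩
      rw [← fr_equiv (Equiv.addRight S0)
        (fun S : Sy ({k : J // k ≠ ks} → F) =>
          nG (bf (oA A B g d)) (bf (mC ks (oB B c))) S.1 = 3 ^ r),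
        ← fr_comp (pa ks) (pa_surj ks)]
      unfold Pool.Agent.Y759.CX.fr
      have h6 : Nat.card (prs J → F) = 3 ^ (prs J).card := by
        rw [Nat.card_fun, Nat.card_eq_fintype_card, Nat.card_eq_fintype_card, ZMod.card,
          Fintype.card_coe]
      rw [h6, Nat.card_eq_fintype_card, Fintype.card_subtype]
      push_cast
      congr 3
      refine Finset.filter_congr fun α _ => ?_
      rw [nX_eq ks A B g c d hA hgc α, bf_add, pow_succ, mul_comm (3 ^ r) 3]
      exact Nat.mul_right_inj (by norm_num)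
    rw [h5, key]
    refine (hLIM Z r).trans (bound ?_)
    omega
  · have h1 := hLA r U J A B (by omega) hA (fun w hw => by
      obtain ⟨k, hk⟩ := hB w 0 (Or.inr hw)
      exact ⟨k, by simpa using hk⟩)
    have h2 : (univ.filter fun α : prs J → ZMod 3 =>
        nX A B g c d (Pool.Agent.Y703.XK.ext α) = 3 ^ (r + 1)) =
        univ.filter fun α : prs J → ZMod 3 =>
          nA A B (Pool.Agent.Y703.XK.ext α) = 3 ^ (r + 1) := by
      refine Finset.filter_congr fun α _ => ?_
      rw [nX_ne A B g c d (Pool.Agent.Y703.XK.ext α) hA (ext_symm α) hgc]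
    rw [h2]
    refine h1.trans ?_
    gcongr
    · norm_num
    · omega

end Pool.Agent.E8helper54.CTM
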